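import Pool.Agent.Y192.KC.All4
import Pool.Agent.W235.RM.Final

/-!
Covers of affine schemes which are pulled back by high powers: definitions and the reduction of the
affine case to the projective one.
-/

set_option autoImplicit false

namespace Pool.Agent.H21bl.KC

open MvPolynomial Pool.Agent.Y192.KC
open Pool.Agent.H159R3.Exp (Laur)
open Pool.Agent.W235.RM (hmg hmg_homog hmg_eval)

variable {n r : ℕ}

/-- the index of the coordinate `t i` -/
def ti (i : Fin n) : Fin (n + r + 1) := (Fin.castAdd r i).castSucc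

/-- the index of the coordinate `w j` -/
def wi (j : Fin r) : Fin (n + r + 1) := (Fin.natAdd n j).castSucc

/-- The equations `f l (t ^ m) = 0`, `w j ^ e j = F j (t ^ m)` and `y * H (t ^ m) = 1`, in the
coordinates `t 0, …, t (n-1), w 0, …, w (r-1), y`. -/
noncomputable def eqs {R : Type} [CommRing R] {ι : Type} (m : ℕ)
    (f : ι → MvPolynomial (Fin n) R) (F : Fin r → MvPolynomial (Fin n) R) (e : Fin r → ℕ)
    (H : MvPolynomial (Fin n) R) : ι ⊕ (Fin r ⊕ Unit) → MvPolynomial (Fin (n + r + 1)) R :=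
  Sum.elim (fun l => aeval (fun i => X (ti i) ^ m) (f l))
    (Sum.elim (fun j => X (wi j) ^ e j - aeval (fun i => X (ti i) ^ m) (F j))
      fun _ => X (Fin.last (n + r)) * aeval (fun i => X (ti i) ^ m) H - 1)

theorem eval_pow {R S : Type} [CommRing R] [CommRing S] (φ : R →+* S) (m : ℕ)
    (z : Fin (n + r + 1) → S) (P : MvPolynomial (Fin n) R) :
    eval₂ φ z (aeval (fun i => X (ti i) ^ m : Fin n → MvPolynomial (Fin (n + r + 1)) R) P) =
      eval₂ φ (fun i => z (ti i) ^ m) P := by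
  induction P using MvPolynomial.induction_on with
  | C a => rw [aeval_C, eval₂_C, MvPolynomial.algebraMap_eq, eval₂_C]
  | add p q hp hq => rw [map_add, eval₂_add, eval₂_add, hp, hq]
  | mul_X p i hp => rw [map_mul, aeval_X, eval₂_mul, eval₂_mul, hp, eval₂_pow, eval₂_X, eval₂_X]

theorem eqs_iff {R S : Type} [CommRing R] [CommRing S] (φ : R →+* S) {ι : Type} (m : ℕ)
    (f : ι → MvPolynomial (Fin n) R) (F : Fin r → MvPolynomial (Fin n) R) (e : Fin r → ℕ)
    (H : MvPolynomial (Fin n) R) (z : Fin (n + r + 1) → S) :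
    (∀ l, eval₂ φ z (eqs m f F e H l) = 0) ↔
      (∀ l, eval₂ φ (fun i => z (ti i) ^ m) (f l) = 0) ∧
      (∀ j, z (wi j) ^ e j = eval₂ φ (fun i => z (ti i) ^ m) (F j)) ∧
      z (Fin.last (n + r)) * eval₂ φ (fun i => z (ti i) ^ m) H = 1 := by
  constructor
  · intro h
    refine ⟨fun l => ?_, fun j => ?_, ?_⟩
    · have h1 := h (Sum.inl l)
      simp only [eqs, Sum.elim_inl] at h1
      rw [eval_pow] at h1
      exact h1
    · have h1 := h (Sum.inr (Sum.inl j))
      simp only [eqs, Sum.elim_inl, Sum.elim_inr] at h1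
      rw [eval₂_sub, eval₂_pow, eval₂_X, eval_pow, sub_eq_zero] at h1
      exact h1
    · have h1 := h (Sum.inr (Sum.inr ()))
      simp only [eqs, Sum.elim_inr] at h1
      rw [eval₂_sub, eval₂_mul, eval₂_X, eval_pow, eval₂_one, sub_eq_zero] at h1
      exact h1
  · rintro ⟨h1, h2, h3⟩ (l | j | _)
    · simp only [eqs, Sum.elim_inl]
      rw [eval_pow]
      exact h1 l
    · simp only [eqs, Sum.elim_inl, Sum.elim_inr]
      rw [eval₂_sub, eval₂_pow, eval₂_X, eval_pow, sub_eq_zero]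
      exact h2 j
    · simp only [eqs, Sum.elim_inr]
      rw [eval₂_sub, eval₂_mul, eval₂_X, eval_pow, eval₂_one, sub_eq_zero]
      exact h3

/-- all indices -/
theorem idx_cases (P : Fin (n + r + 1) → Prop) (h1 : ∀ i : Fin n, P (ti i))
    (h2 : ∀ j : Fin r, P (wi j)) (h3 : P (Fin.last (n + r))) (k : Fin (n + r + 1)) : P k := by
  refine Fin.lastCases h3 (fun k => ?_) k
  exact Fin.addCases (fun i => h1 i) (fun j => h2 j) k

/-- the projective data -/
noncomputable def prj {R ι : Type} [CommRing R] (φ : R →+* ℂ) (f : ι → MvPolynomial (Fin n) R)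
    (F : Fin r → MvPolynomial (Fin n) R) (e : Fin r → ℕ) (he : ∀ j, 0 < e j)
    (H : MvPolynomial (Fin n) R) : LProj n r where
  E := Set.range fun l => hmg (map φ (f l)).totalDegree (map φ (f l))
  F := fun j => hmg (map φ (F j)).totalDegree (map φ (F j))
  d := fun j => (map φ (F j)).totalDegree
  e := e
  hE := by
    rintro _ ⟨l, rfl⟩
    exact ⟨_, hmg_homog _ _ le_rfl⟩
  hF := fun j => hmg_homog _ _ le_rfl
  he := he
  G := X 0 * hmg (map φ H).totalDegree (map φ H)
  q := 1 + (map φ H).totalDegree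
  hG := (isHomogeneous_X ℂ 0).mul (hmg_homog _ _ le_rfl)

theorem hmg_ev {R : Type} [CommRing R] (φ : R →+* ℂ) (P : MvPolynomial (Fin n) R) (m : ℕ) (t : ℂ)
    (x : Fin n → ℂ) (y : Fin (n + 1) → ℂ) (hy0 : y 0 = t) (hy : ∀ i : Fin n, y i.succ = t * x i) :
    eval (fun i => y i ^ m) (hmg (map φ P).totalDegree (map φ P)) =
      t ^ (m * (map φ P).totalDegree) * eval₂ φ (fun i => x i ^ m) P := by
  have h1 := hmg_eval (RingHom.id ℂ) (map φ P).totalDegree (map φ P) le_rfl (t ^ m)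
    (fun i => x i ^ m)
  have h2 : (fun i => y i ^ m) = (Fin.cons (t ^ m) (fun i => t ^ m * x i ^ m) : Fin (n + 1) → ℂ) := by
    funext i
    refine Fin.cases ?_ (fun j => ?_) i
    · rw [Fin.cons_zero, hy0]
    · rw [Fin.cons_succ, hy, mul_pow]
  rw [h2]
  have h3 : ∀ (z : Fin (n + 1) → ℂ) (Q : MvPolynomial (Fin (n + 1)) ℂ),
      eval₂ (RingHom.id ℂ) z Q = eval z Q := fun z Q => rfl
  have h4 : ∀ (z : Fin n → ℂ) (Q : MvPolynomial (Fin n) ℂ),
      eval₂ (RingHom.id ℂ) z Q = eval z Q := fun z Q => rfl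
  rw [h3, h4, eval_map, ← pow_mul] at h1
  exact h1

/-- a polynomial without zeros outside `0` is a monomial -/
theorem mono_of_ne {p : Polynomial ℂ} (h : ∀ z, z ≠ 0 → p.eval z ≠ 0) :
    ∃ (c : ℂ) (k : ℕ), c ≠ 0 ∧ p = Polynomial.C c * Polynomial.X ^ k := by
  have hp : p ≠ 0 := fun h0 => h 1 one_ne_zero (by rw [h0, Polynomial.eval_zero])
  obtain ⟨q, hq, hq0⟩ := Polynomial.exists_eq_pow_rootMultiplicity_mul_and_not_dvd p hp 0
  rw [Polynomial.C_0, sub_zero] at hq hq0
  have h1 : q.degree = 0 := by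
    by_contra hd
    obtain ⟨z, hz⟩ := IsAlgClosed.exists_root q hd
    by_cases hz0 : z = 0
    · apply hq0
      rw [hz0] at hz
      have := Polynomial.dvd_iff_isRoot.2 hz
      rwa [Polynomial.C_0, sub_zero] at this
    · apply h z hz0
      rw [hq, Polynomial.eval_mul, hz.eq_zero, mul_zero]
  rw [Polynomial.eq_C_of_degree_eq_zero h1] at hq
  refine ⟨q.coeff 0, p.rootMultiplicity 0, fun h2 => ?_, by rw [mul_comm]; exact hq⟩
  rw [h2, Polynomial.C_0, mul_zero] at hq
  exact hp hq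

theorem Laur_inv {p : Polynomial ℂ} (h : ∀ z, z ≠ 0 → p.eval z ≠ 0) :
    Laur fun z : ℂ => (p.eval z)⁻¹ := by
  obtain ⟨c, k, hc, rfl⟩ := mono_of_ne h
  refine ⟨k, Polynomial.C c⁻¹, fun z hz => ?_⟩
  simp only [Polynomial.eval_mul, Polynomial.eval_C, Polynomial.eval_pow, Polynomial.eval_X]
  rw [mul_inv, mul_assoc, inv_mul_cancel₀ (pow_ne_zero _ hz), mul_one]

theorem Laur_pow {φ : ℂ → ℂ} (h : Laur φ) (k : ℕ) : Laur fun z => φ z ^ k := by
  induction k with
  | zero =>
    have h1 : (fun z : ℂ => φ z ^ 0) = fun _ => 1 := funext fun z => pow_zero _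
    rw [h1]
    exact Laur.const 1
  | succ k ih =>
    have h1 : (fun z : ℂ => φ z ^ (k + 1)) = fun z => φ z ^ k * φ z := funext fun z => pow_succ _ _
    rw [h1]
    exact ih.mul h

/-- a point from its coordinates -/
def pt3 (a : Fin n → ℂ) (b : Fin r → ℂ) (c : ℂ) : Fin (n + r + 1) → ℂ :=
  Fin.snoc (α := fun _ => ℂ) (Fin.append a b) c

theorem pt3_t (a : Fin n → ℂ) (b : Fin r → ℂ) (c : ℂ) (i : Fin n) : pt3 a b c (ti i) = a i := by
  unfold pt3 ti
  rw [Fin.snoc_castSucc, Fin.append_left]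

theorem pt3_w (a : Fin n → ℂ) (b : Fin r → ℂ) (c : ℂ) (j : Fin r) : pt3 a b c (wi j) = b j := by
  unfold pt3 wi
  rw [Fin.snoc_castSucc, Fin.append_right]

theorem pt3_y (a : Fin n → ℂ) (b : Fin r → ℂ) (c : ℂ) : pt3 a b c (Fin.last (n + r)) = c := by
  unfold pt3
  rw [Fin.snoc_last]

/-- the Laurent curve given by a morphism from the multiplicative group -/
theorem curve_of_gm {R ι : Type} [CommRing R] (φ : R →+* ℂ) (f : ι → MvPolynomial (Fin n) R)
    (F : Fin r → MvPolynomial (Fin n) R) (e : Fin r → ℕ) (he : ∀ j, 0 < e j)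
    (H : MvPolynomial (Fin n) R) (m : ℕ) (hm0 : 0 < m) (hm : ∀ j, e j ∣ m)
    {p : Fin (n + 1) → Polynomial ℂ} {s : Fin r → Polynomial ℂ}
    (hG : (prj φ f F e he H).Gm m p s) :
    ∃ v : ℂ → Fin (n + r + 1) → ℂ, (∀ k, Laur fun z => v z k) ∧
      (∀ z, z ≠ 0 → ∀ l, eval₂ φ (v z) (eqs m f F e H l) = 0) ∧
      (∀ z, z ≠ 0 → (p 0).eval z ≠ 0 ∧ (∀ i : Fin n, (p 0).eval z * v z (ti i) = (p i.succ).eval z) ∧
        ∀ j, (p 0).eval z ^ (prj φ f F e he H).wt m j * v z (wi j) = (s j).eval z) := by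
  classical
  set dH := (map φ H).totalDegree with hdH
  let QH : Polynomial ℂ := aeval (fun i => p i ^ m) (hmg dH (map φ H))
  have hQH : ∀ z, QH.eval z = eval (fun i => (p i).eval z ^ m) (hmg dH (map φ H)) := by
    intro z
    have h1 : ((Polynomial.aeval z : Polynomial ℂ →ₐ[ℂ] ℂ).comp (aeval fun i => p i ^ m)) =
        (aeval fun i => (p i).eval z ^ m : MvPolynomial (Fin (n + 1)) ℂ →ₐ[ℂ] ℂ) := by
      apply MvPolynomial.algHom_ext
      intro i
      rw [AlgHom.comp_apply, aeval_X, aeval_X, map_pow, Polynomial.coe_aeval_eq_eval]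
    have h2 := DFunLike.congr_fun h1 (hmg dH (map φ H))
    rw [AlgHom.comp_apply, Polynomial.coe_aeval_eq_eval] at h2
    exact h2.trans (DFunLike.congr_fun (coe_aeval_eq_eval _) _)
  have h0 : ∀ z, z ≠ 0 → (p 0).eval z ≠ 0 ∧ QH.eval z ≠ 0 := by
    intro z hz
    have h1 := (hG.mem z hz).2
    change eval (fun i => (p i).eval z ^ m) (X 0 * hmg dH (map φ H)) ≠ 0 at h1
    rw [map_mul, eval_X] at h1
    refine ⟨fun h2 => h1 ?_, fun h2 => h1 ?_⟩
    · rw [h2, zero_pow hm0.ne', zero_mul]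
    · rw [← hQH, h2, mul_zero]
  have hL1 : Laur fun z => ((p 0).eval z)⁻¹ := Laur_inv fun z hz => (h0 z hz).1
  have hL2 : Laur fun z => (QH.eval z)⁻¹ := Laur_inv fun z hz => (h0 z hz).2
  let a : ℂ → Fin n → ℂ := fun z i => (p i.succ).eval z * ((p 0).eval z)⁻¹
  let b : ℂ → Fin r → ℂ := fun z j => (s j).eval z * ((p 0).eval z)⁻¹ ^ (prj φ f F e he H).wt m j
  let c : ℂ → ℂ := fun z => (p 0).eval z ^ (m * dH) * (QH.eval z)⁻¹
  have hev : ∀ (P : MvPolynomial (Fin n) R) z, z ≠ 0 →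
      eval (fun i => (p i).eval z ^ m) (hmg (map φ P).totalDegree (map φ P)) =
        (p 0).eval z ^ (m * (map φ P).totalDegree) * eval₂ φ (fun i => a z i ^ m) P := by
    intro P z hz
    refine hmg_ev φ P m ((p 0).eval z) (a z) (fun i => (p i).eval z) rfl fun i => ?_
    show (p i.succ).eval z = (p 0).eval z * ((p i.succ).eval z * ((p 0).eval z)⁻¹)
    have h1 := (h0 z hz).1
    field_simp
  refine ⟨fun z => pt3 (a z) (b z) (c z), fun k => ?_, fun z hz => ?_, fun z hz => ⟨(h0 z hz).1,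
    fun i => ?_, fun j => ?_⟩⟩
  · refine idx_cases (fun k => Laur fun z => pt3 (a z) (b z) (c z) k) (fun i => ?_) (fun j => ?_) ?_ k
    · simp only [pt3_t]
      exact (Laur.poly _).mul hL1
    · simp only [pt3_w]
      exact (Laur.poly _).mul (Laur_pow hL1 _)
    · simp only [pt3_y]
      exact (Laur_pow (Laur.poly (p 0)) _).mul hL2
  · rw [eqs_iff]
    obtain ⟨⟨-, h1, h2⟩, -⟩ := hG.mem z hz
    have hp0 := (h0 z hz).1
    simp only [pt3_t, pt3_w, pt3_y]
    refine ⟨fun l => ?_, fun j => ?_, ?_⟩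
    · have h3 := h1 _ ⟨l, rfl⟩
      rw [hev (f l) z hz] at h3
      exact (mul_eq_zero.1 h3).resolve_left (pow_ne_zero _ hp0)
    · have h3 := h2 j
      change (s j).eval z ^ e j = eval (fun i => (p i).eval z ^ m)
        (hmg (map φ (F j)).totalDegree (map φ (F j))) at h3
      rw [hev (F j) z hz] at h3
      have h4 : (prj φ f F e he H).wt m j * e j = m * (map φ (F j)).totalDegree :=
        Nat.div_mul_cancel ((hm j).mul_right _)
      show ((s j).eval z * ((p 0).eval z)⁻¹ ^ (prj φ f F e he H).wt m j) ^ e j = _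
      rw [mul_pow, h3, ← pow_mul, h4, inv_pow]
      have h5 := pow_ne_zero (m * (map φ (F j)).totalDegree) hp0
      field_simp
    · show (p 0).eval z ^ (m * dH) * (QH.eval z)⁻¹ * _ = 1
      have h3 := hev H z hz
      rw [← hdH, ← hQH] at h3
      have h4 := (h0 z hz).2
      rw [h3] at h4 ⊢
      have h5 := (mul_ne_zero_iff.1 h4).2
      have h6 := (mul_ne_zero_iff.1 h4).1
      rw [mul_inv, ← mul_assoc, mul_inv_cancel₀ h6, one_mul, inv_mul_cancel₀ h5]
  · show (p 0).eval z * pt3 (a z) (b z) (c z) (ti i) = (p i.succ).eval z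
    rw [pt3_t]
    show (p 0).eval z * ((p i.succ).eval z * ((p 0).eval z)⁻¹) = (p i.succ).eval z
    have h1 := (h0 z hz).1
    field_simp
  · show (p 0).eval z ^ (prj φ f F e he H).wt m j * pt3 (a z) (b z) (c z) (wi j) = (s j).eval z
    rw [pt3_w]
    show (p 0).eval z ^ (prj φ f F e he H).wt m j *
      ((s j).eval z * ((p 0).eval z)⁻¹ ^ (prj φ f F e he H).wt m j) = (s j).eval z
    rw [inv_pow]
    have h1 := pow_ne_zero ((prj φ f F e he H).wt m j) (h0 z hz).1
    field_simp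

/-- the entire curves: all points with countably many exceptions lie on Laurent curves -/
theorem curve_of_entire {R ι : Type} [CommRing R] (φ : R →+* ℂ) (f : ι → MvPolynomial (Fin n) R)
    (F : Fin r → MvPolynomial (Fin n) R) (e : Fin r → ℕ) (he : ∀ j, 0 < e j)
    (H : MvPolynomial (Fin n) R) : ∃ m0 : ℕ, ∀ m, m0 ≤ m → (∀ j, e j ∣ m) →
      ∀ g : ℂ → Fin (n + r + 1) → ℂ, Differentiable ℂ g →
        (∀ z l, eval₂ φ (g z) (eqs m f F e H l) = 0) → (∃ z z', g z ≠ g z') →
        {z | ¬ ∃ v : ℂ → Fin (n + r + 1) → ℂ, (∀ k, Laur fun s => v s k) ∧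
          (∀ s, s ≠ 0 → ∀ l, eval₂ φ (v s) (eqs m f F e H l) = 0) ∧
          (∃ s, s ≠ 0 ∧ v s = g z) ∧ ∃ s s', s ≠ 0 ∧ s' ≠ 0 ∧ v s ≠ v s'}.Countable := by
  classical
  obtain ⟨m1, hm1⟩ := gmE_all n r (prj φ f F e he H)
  refine ⟨max m1 1, fun m hmm hme g hg hgF hnc => ?_⟩
  have hm0 : 0 < m := lt_of_lt_of_le one_pos ((le_max_right _ _).trans hmm)
  have hgk : ∀ k, Differentiable ℂ (fun z => g z k) := fun k => by
    rw [differentiable_pi] at hg
    exact hg k
  let u : ℂ → Fin (n + 1) → ℂ := fun z => Fin.cons 1 fun i => g z (ti i)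
  let v : ℂ → Fin r → ℂ := fun z j => g z (wi j)
  have hgF' : ∀ z, _ := fun z => (eqs_iff φ m f F e H (g z)).1 (hgF z)
  have hev : ∀ (P : MvPolynomial (Fin n) R) z,
      eval (fun i => u z i ^ m) (hmg (map φ P).totalDegree (map φ P)) =
        eval₂ φ (fun i => g z (ti i) ^ m) P := by
    intro P z
    rw [hmg_ev φ P m 1 (fun i => g z (ti i)) (u z) rfl fun i => (one_mul _).symm, one_pow, one_mul]
  have hpt : ∀ z, (prj φ f F e he H).Pt m (u z) (v z) := by
    intro z
    obtain ⟨h1, h2, h3⟩ := hgF' z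
    refine ⟨⟨fun h0 => one_ne_zero (congrFun h0 0 : (1 : ℂ) = 0), ?_, fun j => ?_⟩, ?_⟩
    · rintro _ ⟨l, rfl⟩
      rw [hev]
      exact h1 l
    · show g z (wi j) ^ e j = eval (fun i => u z i ^ m)
        (hmg (map φ (F j)).totalDegree (map φ (F j)))
      rw [hev]
      exact h2 j
    · show eval (fun i => u z i ^ m) (X 0 * hmg (map φ H).totalDegree (map φ H)) ≠ 0
      rw [map_mul, eval_X, hev]
      refine mul_ne_zero (pow_ne_zero _ one_ne_zero) fun h0 => ?_
      rw [h0, mul_zero] at h3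
      exact zero_ne_one h3
  have hsame : ∀ z z', (prj φ f F e he H).Same m (u z) (v z) (u z') (v z') → g z = g z' := by
    rintro z z' ⟨s, hs, h1, h2⟩
    have h3 : s = 1 := by
      have h4 : (1 : ℂ) = s * 1 := h1 0
      rw [mul_one] at h4
      exact h4.symm
    have ht : ∀ i, g z' (ti i) = g z (ti i) := by
      intro i
      have h4 : g z' (ti i) = s * g z (ti i) := h1 i.succ
      rw [h4, h3, one_mul]
    funext k
    refine idx_cases (fun k => g z k = g z' k) (fun i => (ht i).symm) (fun j => ?_) ?_ k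
    · have h4 : g z' (wi j) = s ^ (prj φ f F e he H).wt m j * g z (wi j) := h2 j
      rw [h4, h3, one_pow, one_mul]
    · obtain ⟨-, -, h5⟩ := hgF' z
      obtain ⟨-, -, h6⟩ := hgF' z'
      have h7 : (fun i => g z' (ti i) ^ m) = fun i => g z (ti i) ^ m :=
        funext fun i => by rw [ht]
      rw [h7] at h6
      have h8 : eval₂ φ (fun i => g z (ti i) ^ m) H ≠ 0 := fun h0 => by
        rw [h0, mul_zero] at h5
        exact zero_ne_one h5
      exact mul_right_cancel₀ h8 (h5.trans h6.symm)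
  have hE : (prj φ f F e he H).Entire m u v := by
    refine ⟨?_, ?_, hpt, ?_⟩
    · rw [differentiable_pi]
      intro i
      refine Fin.cases ?_ (fun i => ?_) i
      · exact differentiable_const 1
      · exact hgk (ti i)
    · rw [differentiable_pi]
      exact fun j => hgk (wi j)
    · obtain ⟨z, z', h⟩ := hnc
      exact ⟨z, z', fun h1 => h (hsame z z' h1)⟩
  refine (hm1 m ((le_max_left _ _).trans hmm) hme u v hE).mono ?_
  intro z hz hcon
  apply hz
  obtain ⟨p, s, hG, y, hy, t, ht, h1, h2⟩ := hcon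
  obtain ⟨w, k1, k2, k3⟩ := curve_of_gm φ f F e he H m hm0 hme hG
  obtain ⟨k4, k5, k6⟩ := k3 y hy
  have hp0 : t * (p 0).eval y = 1 := (h1 0).symm
  have hw : w y = g z := by
    have ht1 : ∀ i, w y (ti i) = g z (ti i) := by
      intro i
      have h3 : g z (ti i) = t * (p i.succ).eval y := h1 i.succ
      rw [h3, ← k5 i, ← mul_assoc, hp0, one_mul]
    funext k
    refine idx_cases (fun k => w y k = g z k) ht1 (fun j => ?_) ?_ k
    · have h3 : g z (wi j) = t ^ (prj φ f F e he H).wt m j * (s j).eval y := h2 j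
      rw [h3, ← k6 j, ← mul_assoc, ← mul_pow, hp0, one_pow, one_mul]
    · obtain ⟨-, -, h5⟩ := hgF' z
      obtain ⟨-, -, h6⟩ := (eqs_iff φ m f F e H (w y)).1 (k2 y hy)
      have h7 : (fun i => w y (ti i) ^ m) = fun i => g z (ti i) ^ m :=
        funext fun i => by rw [ht1]
      rw [h7] at h6
      have h8 : eval₂ φ (fun i => g z (ti i) ^ m) H ≠ 0 := fun h0 => by
        rw [h0, mul_zero] at h5
        exact zero_ne_one h5
      exact mul_right_cancel₀ h8 (h6.trans h5.symm)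
  refine ⟨w, k1, k2, ⟨y, hy, hw⟩, ?_⟩
  by_contra hcon
  push Not at hcon
  obtain ⟨z1, z2, hz1, hz2, hne⟩ := hG.nonconst
  apply hne
  have hw12 := hcon z1 z2 hz1 hz2
  obtain ⟨a1, a2, a3⟩ := k3 z1 hz1
  obtain ⟨b1, b2, b3⟩ := k3 z2 hz2
  refine ⟨(p 0).eval z2 / (p 0).eval z1, div_ne_zero b1 a1, fun i => ?_, fun j => ?_⟩
  · refine Fin.cases ?_ (fun i => ?_) i
    · show (p 0).eval z2 = (p 0).eval z2 / (p 0).eval z1 * (p 0).eval z1
      field_simp
    · show (p i.succ).eval z2 = (p 0).eval z2 / (p 0).eval z1 * (p i.succ).eval z1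
      rw [← a2 i, ← b2 i, hw12]
      field_simp
  · show (s j).eval z2 = ((p 0).eval z2 / (p 0).eval z1) ^ (prj φ f F e he H).wt m j * (s j).eval z1
    rw [← a3 j, ← b3 j, hw12, div_pow]
    have := pow_ne_zero ((prj φ f F e he H).wt m j) a1
    field_simp

end Pool.Agent.H21bl.KC
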