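import Pool.Agent.H21bl.KC.Aff

/-!
The equivalence for the covers pulled back by high powers.
-/

set_option autoImplicit false

namespace Pool.Agent.H21bl.KC

open MvPolynomial NumberField
open Pool.Agent.H159R3.Exp (Laur FinitelyManyIntegral ExpCurvesIn)
open Pool.Agent.W235.RM
open scoped NumberField

/-- a nonzero entire function has uncountably many nonzeros -/
theorem uncountable_ne {h : ℂ → ℂ} (hc : Continuous h) {z : ℂ} (hz : h z ≠ 0) :
    ¬ {w | h w ≠ 0}.Countable := by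
  intro hco
  have h1 : IsOpen {w | h w ≠ 0} := isOpen_ne.preimage hc
  have h2 : (interior {w | h w ≠ 0}).Nonempty := ⟨z, by rw [h1.interior_eq]; exact hz⟩
  have h3 := (Set.Countable.dense_compl ℝ hco)
  obtain ⟨w, hw1, hw2⟩ := h3.inter_open_nonempty _ h1 ⟨z, hz⟩
  exact hw2 hw1

theorem entire_of_gmK {K : Type} [Field K] {n r : ℕ} {ι : Type}
    (f : ι → MvPolynomial (Fin n) (𝓞 K)) (F : Fin r → MvPolynomial (Fin n) (𝓞 K)) (e : Fin r → ℕ)
    (he : ∀ j, 0 < e j) (H : MvPolynomial (Fin n) (𝓞 K)) (σ : K →+* ℂ) :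
    ∃ m0 : ℕ, ∀ m, m0 ≤ m → (∀ j, e j ∣ m) →
      ∀ {κ : Type} (G : κ → MvPolynomial (Fin (n + r + 1)) (𝓞 K)),
        GmCurvesIn σ (eqs m f F e H) G → EntireCurvesIn σ (eqs m f F e H) G := by
  obtain ⟨m0, hm0⟩ := curve_of_entire (σ.comp (algebraMap (𝓞 K) K)) f F e he H
  refine ⟨m0, fun m hm hme κ G h g hg hgF hnc z l => ?_⟩
  by_contra hz
  have h1 := hm0 m hm hme g hg hgF hnc
  have h2 : Continuous fun z => eval₂ (σ.comp (algebraMap (𝓞 K) K)) (g z) (G l) := by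
    have h3 : (fun z => eval₂ (σ.comp (algebraMap (𝓞 K) K)) (g z) (G l)) =
        fun z => eval (g z) (map (σ.comp (algebraMap (𝓞 K) K)) (G l)) :=
      funext fun z => (eval_map _ _ _).symm
    rw [h3]
    exact (Pool.Agent.H159R3.Exp.differentiable_eval hg _).continuous
  refine uncountable_ne h2 hz (h1.mono fun w hw => ?_)
  rintro ⟨v, k1, k2, ⟨s, hs, k3⟩, s1, s2, hs1, hs2, k4⟩
  apply hw
  have h4 := h v k1 (fun i t ht => k2 t ht i) ⟨s1, s2, hs1, hs2, k4⟩ l s hs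
  rw [k3] at h4
  exact h4

theorem main {K : Type} [Field K] [NumberField K] {n r : ℕ} {ι : Type} [Finite ι]
    (f : ι → MvPolynomial (Fin n) (𝓞 K)) (F : Fin r → MvPolynomial (Fin n) (𝓞 K)) (e : Fin r → ℕ)
    (he : ∀ j, 0 < e j) (H : MvPolynomial (Fin n) (𝓞 K)) :
    ∃ m0 : ℕ, ∀ m, m0 ≤ m → (∀ j, e j ∣ m) →
      ∀ {κ : Type} (G : κ → MvPolynomial (Fin (n + r + 1)) (𝓞 K)) (σ : K →+* ℂ),
        List.TFAE [EntireCurvesIn σ (eqs m f F e H) G, GmCurvesIn σ (eqs m f F e H) G,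
          RecurrenceFinite (eqs m f F e H) G] ∧
        (FinitelyManyIntegral (eqs m f F e H) G → EntireCurvesIn σ (eqs m f F e H) G) := by
  classical
  have h0 : ∀ σ : K →+* ℂ, _ := fun σ => entire_of_gmK f F e he H σ
  choose m0 hm0 using h0
  refine ⟨Finset.univ.sup m0, fun m hm hme κ G σ => ?_⟩
  have ht := tfae σ (eqs m f F e H) G
  have h1 := hm0 σ m ((Finset.le_sup (Finset.mem_univ σ)).trans hm) hme G
  have h2 : EntireCurvesIn σ (eqs m f F e H) G → GmCurvesIn σ (eqs m f F e H) G :=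
    fun h => (ht.out 0 1).1 (exp_of_entire σ _ G h)
  refine ⟨?_, fun h => h1 ((ht.out 5 1).1 (rec_of_integral _ G h))⟩
  tfae_have 1 → 2 := h2
  tfae_have 2 → 1 := h1
  tfae_have 2 ↔ 3 := ht.out 1 5
  tfae_finish

end Pool.Agent.H21bl.KC
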